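import Mathlib
import Pool.Agent.W126.MultiA

set_option autoImplicit false

/-!
# Long prime-free intervals: arbitrary shapes at all but boundedly many scales at once

Seen from a prime `p`, the primes form at the scale `H` the set of the numbers `(p' - p)/H`. We prescribe this
set at any number of scales between `log X` and the record size of the prime-free intervals, all at
once, and realise it by the same primes `p`, at all scales but `L(k)`, where `k` bounds the number of points of
the shapes.

Design and proof: helper126 (trees of positions; a dense set of words has a word with few levels that are not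
full). It rests on the coloured Maynard-Tao theorem inside the record windows (`Pool.Agent.H362R2.RQ.stRQ`,
helper362), the record sieve of helper256 and helper410 and the Maynard-Tao sieve inside record windows of
helper312's team. Primes of a class in short intervals: second difference method of helper142 with the
Hoheisel theorem of helper295, helper180, helper154 and helper469.
-/

open Filter

namespace Pool.Agent.Results.MP_c853c5_nt.AllButFewScales

/-- The record scale `f(x) = log x (log₂ x)² log₄ x / (log₃ x)²` (iterated natural logarithms). -/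
noncomputable def f (x : ℝ) : ℝ :=
  Real.log x * (Real.log (Real.log x)) ^ 2 * Real.log (Real.log (Real.log (Real.log x))) /
    (Real.log (Real.log (Real.log x))) ^ 2

/-- At the scale `H` the primes seen from `p` form the set of the `V b`: every prime `p'` with
`|p' - p| ≤ R H` is `≡ a (mod q)` and has `(p' - p)/H` within `δ` of some `V b`; and for every `b` some prime
`p' ≡ a (mod q)` has `(p' - p)/H` within `δ` of `V b`. -/
def Looks {k : ℕ} (q a : ℕ) (R δ H : ℝ) (V : Fin k → ℝ) (p : ℕ) : Prop :=
  (∀ p' : ℕ, p'.Prime → |(p' : ℝ) - p| ≤ R * H →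
    p' ≡ a [MOD q] ∧ ∃ b, |((p' : ℝ) - p) / H - V b| ≤ δ) ∧
  (∀ b, ∃ p' : ℕ, p'.Prime ∧ p' ≡ a [MOD q] ∧ |((p' : ℝ) - p) / H - V b| ≤ δ)

/-- For every `k ≥ 1` there is `L` and for every `N` there are `K` and `c > 0` with the following property. Let
`R ≥ 1`, `0 < δ ≤ 1`, `q` squarefree, `a` prime to `q` and `X` large. Let `H 0, ..., H (N - 1)` be scales
with `log X ≤ H i`, `R H i ≤ c f(X)` and `80 R H j ≤ δ H i` for `i < j`, and for every `i` let
`V i 0, ..., V i (k - 1)` be arbitrary points of `[-R, R]` (not necessarily distinct). There are a set `E` of at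
most `L` exceptional scales (with `V i` not constant for `i ∈ E`) and points `V i (o i)` of the shapes such that
at least `X^(7/8)` primes `p ∈ (X, 4X]` have at most `K` primes within `c f(X)` of `p` and, at ALL scales
`H i`, `i ∉ E`, the primes seen from `p` form the set of the `V i b - V i (o i)`. -/
theorem result (k : ℕ) (hk : 1 ≤ k) : ∃ L : ℕ, ∀ N : ℕ, ∃ K : ℕ, ∃ c : ℝ, 0 < c ∧
    ∀ R δ : ℝ, 1 ≤ R → 0 < δ → δ ≤ 1 → ∀ q a : ℕ, Squarefree q → a.Coprime q → ∃ X₀ : ℝ, ∀ X : ℝ, X₀ ≤ X →
    ∀ H : Fin N → ℝ, (∀ i, Real.log X ≤ H i ∧ R * H i ≤ c * f X) →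
    (∀ i j : Fin N, i < j → 80 * R * H j ≤ δ * H i) →
    ∀ V : Fin N → Fin k → ℝ, (∀ i b, |V i b| ≤ R) →
    ∃ (E : Finset (Fin N)) (o : Fin N → Fin k), E.card ≤ L ∧ (∀ i ∈ E, ∃ b b', V i b ≠ V i b') ∧
      X ^ (7 / 8 : ℝ) ≤ ({p : ℕ | p.Prime ∧ X < p ∧ (p : ℝ) ≤ 4 * X ∧
        {p' : ℕ | p'.Prime ∧ |(p' : ℝ) - p| ≤ c * f X}.ncard ≤ K ∧
        ∀ i, i ∉ E → Looks q a R δ (H i) (fun b => V i b - V i (o i)) p}.ncard : ℝ) :=
  Pool.Agent.W126.MultiA.multiA k hk

end Pool.Agent.Results.MP_c853c5_nt.AllButFewScales
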