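import Mathlib
import Pool.Agent.W301.SS.Out4

/-!
Averages of the normalised number of primes in `(x, x + y]` over the points `x` of the translates
of an arbitrary set of integers, for windows of all lengths (also of bounded length).

Method: Parseval over the points of the translates, with Vinogradov's estimate on the minor arcs,
the Siegel-Walfisz theorem on the major arcs and the decay of the kernel of the interval.
-/

set_option autoImplicit false

/-- For every `ε > 0` and `U` there are `C` and `K` such that for all `N ≥ K`, every nonempty set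
`A` of integers in `[1, N]` and every real `H ≥ 1` the following holds for all integers
`b ∈ [1, N]` outside a set of at most
`C (N² / |A|) (((1 + log H) / H)² + (log N)^(-U))` exceptions and, simultaneously, for all real
`y ∈ [H, N]`: the average over the points `x = a + b`, `a ∈ A`, of
`(π(x + y) - π(x)) / (y / log x)` differs from `1` by at most `ε`. -/
theorem Pool.Agent.Results.MP_c853c5_nt.AllWindowLengths.result (ε : ℝ) (hε : 0 < ε) (U : ℕ) :
    ∃ C : ℝ, 0 < C ∧ ∃ K : ℕ, ∀ N : ℕ, K ≤ N →
    ∀ A : Finset ℕ, A ⊆ Finset.Icc 1 N → A.Nonempty → ∀ H : ℝ, 1 ≤ H →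
    ∃ E : Finset ℕ, E ⊆ Finset.Icc 1 N ∧ (E.card : ℝ) ≤
      C * ((N : ℝ) ^ 2 / A.card) * (((1 + Real.log H) / H) ^ 2 + 1 / Real.log N ^ U) ∧
      ∀ b ∈ Finset.Icc 1 N, b ∉ E → ∀ y : ℝ, H ≤ y → y ≤ N →
        |(∑ a ∈ A, ((Nat.primeCounting ⌊((a + b : ℕ) : ℝ) + y⌋₊ : ℝ) - Nat.primeCounting (a + b)) /
          (y / Real.log ((a + b : ℕ) : ℝ))) / A.card - 1| ≤ ε :=
  Pool.Agent.W301.SS.allWindows ε hε U
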