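import Pool.Agent.W100.MC.Sub

set_option autoImplicit false

/-!
# Sum systems of vectors of consecutive prime gaps, at every scale up to the record scale

For every null sequence `x` of positive reals there are finite sets `W_0 < W_1 < …` of indices such that,
with `x_F` the sum of the `x_u`, `u ∈ ⋃_{i ∈ F} W_i`, ALL vectors `(x_{F_1}, …, x_{F_m})` with finite nonempty
`F_0 < F_1 < … < F_m`, `min F_0 ≥ N(m)`, are, up to every `ε`, vectors of `m` consecutive prime gaps divided by
the record scale `f`, for at least `X^(7/8)` blocks of primes of `(X, 4X]` for infinitely many `X` of any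
prescribed sequence tending to infinity. The theorem does this for countably many sequences `x`, scales
`H` between `log X` and `f(X)`, moduli and prescriptions of residue classes at once.

The coloured Maynard-Tao theorem inside record windows (`Pool.Agent.H362R2.RQ.stRQ` of the starting files, in the
form `Pool.Agent.H672R3.SimRec.window`) is combined with Milliken's theorem for closed families of block
sequences (`Pool.Agent.W68.Mil2`).
-/

open Finset Filter Topology

namespace Pool.Agent.Results.MP_c853c5_nt.SumSystemsOfGaps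

/-- The record scale `f(x) = log x (log₂ x)² log₄ x / (log₃ x)²` (iterated natural logarithms). -/
noncomputable def f (x : ℝ) : ℝ :=
  Real.log x * (Real.log (Real.log x)) ^ 2 * Real.log (Real.log (Real.log (Real.log x))) /
    (Real.log (Real.log (Real.log x))) ^ 2

/-- The indices `n` of the blocks `p_n, ..., p_(n+m)` of consecutive primes of `(X, 4X]` such that
`p_(n+i) ≡ a i (mod q)` for `0 ≤ i ≤ m` and `(p_(n+i+1) - p_(n+i)) / H` differs by less than `ε` from `v i`
for `0 ≤ i < m` (`p_n` is the prime with index `n`, counted from `0`). -/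
def Blocks (m q : ℕ) (a : Fin (m + 1) → ℕ) (X H ε : ℝ) (v : Fin m → ℝ) : Set ℕ :=
  {n | X < (Nat.nth Nat.Prime n : ℝ) ∧ (Nat.nth Nat.Prime (n + m) : ℝ) ≤ 4 * X ∧
    (∀ i : Fin (m + 1), Nat.nth Nat.Prime (n + i) ≡ a i [MOD q]) ∧
    ∀ i : Fin m, |((Nat.nth Nat.Prime (n + i + 1) : ℝ) - Nat.nth Nat.Prime (n + i)) / H - v i| < ε}

/-- `v` is a frequent vector of gaps divided by `H_k`, along the primes near `X_k`: for every `ε > 0` there
are infinitely many `k` with at least `X_k^(7/8)` blocks within `ε` of `v`. -/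
def Frequent (m q : ℕ) (a : Fin (m + 1) → ℕ) (X H : ℕ → ℝ) (v : Fin m → ℝ) : Prop :=
  ∀ ε : ℝ, 0 < ε → ∃ᶠ k : ℕ in atTop,
    (X k) ^ (7 / 8 : ℝ) ≤ ((Blocks m q a (X k) (H k) ε v).ncard : ℝ)

/-- `H_k` is at least a constant times `log X_k` and `H_k = o(f(X_k))`. -/
def BelowRecord (X H : ℕ → ℝ) : Prop :=
  (∃ c : ℝ, 0 < c ∧ ∀ᶠ k in atTop, c * Real.log (X k) ≤ H k) ∧
    ∀ ε : ℝ, 0 < ε → ∀ᶠ k in atTop, H k ≤ ε * f (X k)

/-- `H_k` is at most a constant times `f(X_k)` and `log X_k = o(H_k)`. -/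
def UpToRecord (X H : ℕ → ℝ) : Prop :=
  (∃ C : ℝ, 0 < C ∧ ∀ᶠ k in atTop, H k ≤ C * f (X k)) ∧
    ∀ ε : ℝ, 0 < ε → ∀ᶠ k in atTop, Real.log (X k) ≤ ε * H k

/-- For every `s` let `X_s(k)` tend to infinity with `k`, let `x_s` be a sequence of positive reals and let
`H_s(k)` be scales, either with `c log X_s ≤ H_s = o(f(X_s))`, or with `log X_s = o(H_s)`, `H_s ≤ C f(X_s)`, and
then `x_s` is supposed to tend to `0`; let `q_s` be squarefree and let `a_s` attach to every finite set of
indices a residue prime to `q_s`. There are nonempty finite sets `W_0 < W_1 < …` such that for all `s`, `m`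
there is `N` with: for all nonempty finite sets `F_0 < F_1 < … < F_m` of integers `≥ N` the vector
`(x_s(W_{F_1}), …, x_s(W_{F_m}))` is a frequent vector of `m` consecutive prime gaps divided by `H_s`, along
blocks `p_n, …, p_(n+m)` with `p_(n+i) ≡ a_s(W_{F_0 ∪ … ∪ F_i}) (mod q_s)`. Here `W_F` is the union of the
`W_i`, `i ∈ F`, and `x(W)` is the sum of the `x_u`, `u ∈ W`. -/
theorem result (X H : ℕ → ℕ → ℝ) (hX : ∀ s, Tendsto (X s) atTop atTop)
    (x : ℕ → ℕ → ℝ) (hx : ∀ s i, 0 < x s i)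
    (hH : ∀ s, BelowRecord (X s) (H s) ∨ (UpToRecord (X s) (H s) ∧ Tendsto (x s) atTop (𝓝 0)))
    (q : ℕ → ℕ) (hq : ∀ s, Squarefree (q s)) (a : ℕ → Finset ℕ → ℕ)
    (ha : ∀ s C, (a s C).Coprime (q s)) :
    ∃ W : ℕ → Finset ℕ, (∀ i, (W i).Nonempty) ∧ (∀ i, ∀ u ∈ W i, ∀ v ∈ W (i + 1), u < v) ∧
      ∀ s m : ℕ, ∃ N : ℕ, ∀ F : ℕ → Finset ℕ,
        (∀ i ≤ m, (F i).Nonempty) → (∀ i ≤ m, ∀ u ∈ F i, N ≤ u) →
        (∀ i < m, ∀ u ∈ F i, ∀ v ∈ F (i + 1), u < v) →
        Frequent m (q s) (fun i => a s (((range (i + 1)).biUnion F).biUnion W)) (X s) (H s)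
          (fun i => ∑ u ∈ (F (i + 1)).biUnion W, x s u) := by
  obtain ⟨W, hW, h⟩ := Pool.Agent.W100.MC.main X H hX x hx hH q hq a ha
  refine ⟨W, hW.1, hW.2, fun s m => ?_⟩
  obtain ⟨N, hN⟩ := h s m
  refine ⟨N, fun F h1 h2 h3 => hN F (fun i hi => h1 i (by omega)) (fun i hi => h2 i (by omega))
    (fun i hi => h3 i (by omega))⟩

end Pool.Agent.Results.MP_c853c5_nt.SumSystemsOfGaps
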